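import Pool.Agent.H354.BG.Stm

/-!
# Project BG, task SEM2: every admissible prolongation comes from an admissible syllable (helper38)

Adapted from the library module `H482R3/EC/SEM2B.lean`.
-/

set_option autoImplicit false
set_option linter.unusedSectionVars false

namespace Pool.Agent.H38.BG.SEM2

open Pool.Agent.H354.BG
open Pool.Agent.H482R3.EA (W inv ev PP xx evF cond1 cond2 Syl gOf Sys St Near InD Adm Act)
open Pool.Agent.H482R3.EB (tot wp alt rels AR gR TR Tame Symm alt_length)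

/-- every element of the free group is the value of a word over `ℕ` -/
theorem wordF (k : ℕ) (hk : 0 < k) (y : FreeGroup (Fin k)) : ∃ y0 : W ℕ, evF k y0 = y := by
  have hev := Pool.Agent.H482R3.EB.Asm.ev ℕ (FreeGroup (Fin k)) inferInstance
    (fun r => xx k ((r % k : ℕ) : ℤ))
  have hof : ∀ x : Fin k, ∃ y0 : W ℕ, evF k y0 = FreeGroup.of x := by
    intro x
    refine ⟨[(x.val, true)], ?_⟩
    have h1 : evF k [(x.val, true)] = xx k ((x.val % k : ℕ) : ℤ) := by
      simp [evF, ev]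
    rw [h1, Nat.mod_eq_of_lt x.2]
    exact (Pool.Agent.H482R3.EB.Asm.xx k hk).2.2 x
  refine FreeGroup.induction_on y ⟨[], rfl⟩ hof ?_ ?_
  · intro x hx
    obtain ⟨u, hu⟩ := hof x
    refine ⟨inv u, ?_⟩
    have h1 : evF k (inv u) = (evF k u)⁻¹ := hev.2.1 u
    rw [h1, hu]
    try rfl
  · rintro x y ⟨u, hu⟩ ⟨u', hu'⟩
    refine ⟨u ++ u', ?_⟩
    have h1 : evF k (u ++ u') = evF k u * evF k u' := hev.1 u u'
    rw [h1, hu, hu']

section

variable (D : Dat) (U : Finset (Fin D.r)) (b : Fin D.r)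

/-- every coset is the class of the value of a word -/
theorem coset_word (H : Subgroup D.A) (c : D.A ⧸ H) :
    ∃ g : W (Fin D.n), gEl D g = c.out ∧ (QuotientGroup.mk (gEl D g) : D.A ⧸ H) = c := by
  obtain ⟨g, hg⟩ := gEl_surj D c.out
  refine ⟨g, hg, ?_⟩
  rw [hg]
  exact Quotient.out_eq' c

/-- powers of `w` are in `Hw` -/
theorem pow_mem_Hw {v w : Fin D.n} (hc : okL D U b v w) (j : ℤ) :
    gR D.m w ^ j ∈ Hw D U b w := by
  rw [mem_Hw]
  refine ⟨j, 1, Subgroup.one_mem _, ?_⟩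
  rw [mul_one, rho_zpow_in D hc.2.1]

/-- the point with index `j` on a cross line -/
theorem ix_pt {v w : Fin D.n} (hc : okL D U b v w) (C : D.A ⧸ Hw D U b w) (g : W (Fin D.n))
    (hC : (QuotientGroup.mk (gEl D g) : D.A ⧸ Hw D U b w) = C) (j : ℤ) :
    Ix D U b ((QuotientGroup.mk (gEl D g * gR D.m w ^ j), ⟨v, hc.1⟩) : Pt D U b)
      (Sum.inr ⟨(⟨(v, w), hc⟩ : LI D U b), C⟩) := by
  refine ⟨rfl, gEl D g * gR D.m w ^ j, rfl, ?_⟩
  show C = (QuotientGroup.mk (gEl D g * gR D.m w ^ j) : D.A ⧸ Hw D U b w)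
  rw [QuotientGroup.mk_mul_of_mem _ (pow_mem_Hw D U b hc j)]
  exact hC.symm

/-- its letter -/
theorem xl_pt {v w : Fin D.n} (hc : okL D U b v w) (C : D.A ⧸ Hw D U b w) (g : W (Fin D.n))
    (hg : gEl D g = C.out) (j : ℤ) :
    xl D U b (Sum.inr ⟨(⟨(v, w), hc⟩ : LI D U b), C⟩)
      ((QuotientGroup.mk (gEl D g * gR D.m w ^ j), ⟨v, hc.1⟩) : Pt D U b) =
      xx (kk D v w) j := by
  show xx (kk D v w) (eg D (D.β w) ((C.out : D.A)⁻¹ *
    (QuotientGroup.mk (gEl D g * gR D.m w ^ j) : D.A ⧸ H0 D U b).out)) = _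
  obtain ⟨⟨z, hz⟩, hz2⟩ := QuotientGroup.mk_out_eq_mul (H0 D U b) (gEl D g * gR D.m w ^ j)
  have hz2' : (QuotientGroup.mk (gEl D g * gR D.m w ^ j) : D.A ⧸ H0 D U b).out =
      gEl D g * gR D.m w ^ j * z := hz2
  rw [hz2', hg, mul_assoc, inv_mul_cancel_left, eg_mul, eg_gR_zpow, eg_H0 D U b hc hz, add_zero]

/-- all points of a cross line -/
theorem pt_of_ix {v w : Fin D.n} (hc : okL D U b v w) (C : D.A ⧸ Hw D U b w) (g : W (Fin D.n))
    (hC : (QuotientGroup.mk (gEl D g) : D.A ⧸ Hw D U b w) = C) (q : Pt D U b)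
    (hq : Ix D U b q (Sum.inr ⟨(⟨(v, w), hc⟩ : LI D U b), C⟩)) :
    ∃ j : ℤ, q = ((QuotientGroup.mk (gEl D g * gR D.m w ^ j), ⟨v, hc.1⟩) : Pt D U b) := by
  obtain ⟨q1, ⟨v1, hv1⟩⟩ := q
  obtain ⟨hv, g', hg1, hg2⟩ := hq
  have hv' : v1 = v := hv
  subst hv'
  have hg1' : q1 = (QuotientGroup.mk g' : D.A ⧸ H0 D U b) := hg1
  have hg2' : (QuotientGroup.mk (gEl D g) : D.A ⧸ Hw D U b w) = QuotientGroup.mk g' :=
    hC.trans hg2
  rw [QuotientGroup.eq, mem_Hw] at hg2'
  obtain ⟨j, u, hu, hju⟩ := hg2'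
  refine ⟨j, ?_⟩
  refine Prod.ext ?_ rfl
  show q1 = (QuotientGroup.mk (gEl D g * gR D.m w ^ j) : D.A ⧸ H0 D U b)
  rw [hg1', eq_comm, QuotientGroup.eq, mem_H0]
  have h1 : (gEl D g * gR D.m w ^ j)⁻¹ * g' = (gR D.m w ^ j)⁻¹ * ((gEl D g)⁻¹ * g') := by
    group
  rw [h1, map_mul, hju, map_inv, rho_zpow_in D hc.2.1, inv_mul_cancel_left]
  exact par_mono D (pZ_sub D _ _) hu

end

theorem t_SEM2X (hdic : S_DICX) : S_SEM2X := by
  intro D U b hb h s l y hs hadm
  have hadm' : (∃ (p : Pt D U b) (n : ℤ), Ix D U b p l ∧ n ≠ 0 ∧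
        ¬ Near (sysX D U b h) p (stO D U b h s) ∧ y = xl D U b l p ^ n) ∨
      (¬ InD (sysX D U b h) l (stO D U b h s) ∧
        (∀ q : Pt D U b, Ix D U b q l → ¬ Near (sysX D U b h) q (stO D U b h s)) ∧
        ∀ (r : Pt D U b) (a : ℤ), Ix D U b r l → y ≠ xl D U b l r ^ a) ∨
      (¬ InD (sysX D U b h) l (stO D U b h s) ∧ ∃ q : Pt D U b, Ix D U b q l ∧
        Near (sysX D U b h) q (stO D U b h s) ∧
        ∀ (r : Pt D U b) (a c : ℤ), Ix D U b r l →
          y ≠ xl D U b l q ^ a * xl D U b l r ^ c) := hadm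
  rcases hadm' with ⟨p, n, hp, hn, hnear, hy⟩ | hrest
  · -- a point
    obtain ⟨g0, ⟨v, hv⟩⟩ := p
    obtain ⟨g, hg, hg'⟩ := coset_word D (H0 D U b) g0
    subst hg'
    refine ⟨.inl (g, v, decide (0 < n), n.natAbs), ⟨hv, by omega, ?_⟩, ?_⟩
    · rw [(hdic D U b hb h s g hs).1 v hv]
      exact hnear
    · intro A ω
      have h1 : A.act ω l (xl D U b l ((QuotientGroup.mk (gEl D g), ⟨v, hv⟩) : Pt D U b) ^ n) =
          A.act ω (Sum.inl (QuotientGroup.mk (gEl D g)) : Ln D U b)
            (rhoP D b (gR D.m v) ^ n : par D {b}) :=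
        A.act_pt ω l (Sum.inl (QuotientGroup.mk (gEl D g)) : Ln D U b)
          ((QuotientGroup.mk (gEl D g), ⟨v, hv⟩) : Pt D U b) n hp rfl
      rw [hy]
      refine h1.trans ?_
      have h2 : (rhoP D b (lt D (v, decide (0 < n))) ^ n.natAbs : par D {b}) =
          rhoP D b (gR D.m v) ^ n := by
        by_cases h0 : 0 < n
        · simp only [h0, decide_true, lt_true]
          rw [← zpow_natCast, Int.natAbs_of_nonneg h0.le]
        · simp only [h0, decide_false, lt_false]
          rw [map_inv, ← zpow_natCast, inv_zpow', Int.ofNat_natAbs_of_nonpos (by omega),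
            neg_neg]
      show A.act ω (Sum.inl (QuotientGroup.mk (gEl D g)) : Ln D U b)
          (rhoP D b (gR D.m v) ^ n : par D {b}) =
        A.act ω (Sum.inl (QuotientGroup.mk (gEl D g)) : Ln D U b)
          (rhoP D b (lt D (v, decide (0 < n))) ^ n.natAbs : par D {b})
      rw [h2]
  · rcases l with g0 | ⟨⟨⟨v, w⟩, hc⟩, C⟩
    · -- a block line
      obtain ⟨g, hg, hg'⟩ := coset_word D (H0 D U b) g0
      subst hg'
      obtain ⟨y0, hy0⟩ := rhoP_surj D b y
      have hcoe : ∀ (v : Fin D.n) (i : ℤ), D.β v = b →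
          ((rhoP D b (gR D.m v) ^ i : par D {b}) : D.A) = gR D.m v ^ i := by
        intro v i hv
        rw [Subgroup.coe_zpow, rhoP_coe, rho_gR, if_pos (by rw [hv]; exact Finset.mem_singleton_self b)]
      have hyc : (show par D {b} from y).1 = rho D {b} (gEl D y0) := by
        rw [← hy0]
        rfl
      refine ⟨.inr (.inl (g, y0)), ?_, ?_⟩
      · rcases hrest with ⟨hin, hnn, hne⟩ | ⟨hin, q, hql, hqn, hne⟩
        · refine ⟨?_, Or.inl ⟨fun v hv => ?_, fun v a hv => ?_⟩⟩
          · rw [(hdic D U b hb h s g hs).2.1]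
            exact hin
          · rw [(hdic D U b hb h s g hs).1 v hv]
            exact hnn ((QuotientGroup.mk (gEl D g), ⟨v, hv⟩) : Pt D U b) rfl
          · intro ht
            refine hne ((QuotientGroup.mk (gEl D g), ⟨v, hv⟩) : Pt D U b) a rfl ?_
            show (y : par D {b}) = (rhoP D b (gR D.m v) ^ a : par D {b})
            exact Subtype.ext (by rw [hcoe v a hv, ← ht]; exact hyc)
        · obtain ⟨q1, ⟨v, hv⟩⟩ := q
          have hq1 : q1 = QuotientGroup.mk (gEl D g) := hql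
          subst hq1
          refine ⟨?_, Or.inr ⟨v, hv, ?_, fun v' a c hv' => ?_⟩⟩
          · rw [(hdic D U b hb h s g hs).2.1]
            exact hin
          · rw [(hdic D U b hb h s g hs).1 v hv]
            exact hqn
          · intro ht
            refine hne ((QuotientGroup.mk (gEl D g), ⟨v', hv'⟩) : Pt D U b) a c rfl ?_
            show (y : par D {b}) =
              (rhoP D b (gR D.m v) ^ a * rhoP D b (gR D.m v') ^ c : par D {b})
            exact Subtype.ext (by
              rw [Subgroup.coe_mul, hcoe v a hv, hcoe v' c hv', ← ht]; exact hyc)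
      · intro A ω
        show A.act ω (Sum.inl (QuotientGroup.mk (gEl D g)) : Ln D U b) y =
          A.act ω (Sum.inl (QuotientGroup.mk (gEl D g)) : Ln D U b)
            (rhoP D b (gEl D y0) : par D {b})
        rw [hy0]
    · -- a cross line
      have hk : 0 < kk D v w := by
        have h2 : 2 ≤ kk D v w := (kk_spec D hc).1
        omega
      obtain ⟨g, hg, hC⟩ := coset_word D (Hw D U b w) C
      obtain ⟨y0, hy0⟩ := wordF _ hk y
      have hpt := ix_pt D U b hc C g hC
      have hx := xl_pt D U b hc C g hg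
      have hInDL : ¬ InD (sysX D U b h) (Sum.inr ⟨(⟨(v, w), hc⟩ : LI D U b), C⟩ : Ln D U b)
          (stO D U b h s) := by
        rcases hrest with ⟨hin, _⟩ | ⟨hin, _⟩
        · exact hin
        · exact hin
      have hnl : ¬ InDL D U b g v w s := by
        rw [(hdic D U b hb h s g hs).2.2 v w hc, hC]
        exact hInDL
      have hnear : ∀ j : ℤ, NearW D U b (g ++ wp w j) v s ↔
          Near (sysX D U b h)
            ((QuotientGroup.mk (gEl D g * gR D.m w ^ j), ⟨v, hc.1⟩) : Pt D U b)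
            (stO D U b h s) := by
        intro j
        rw [(hdic D U b hb h s (g ++ wp w j) hs).1 v hc.1, gEl_append, gEl_wp]
      refine ⟨.inr (.inr (g, v, w, y0)), ⟨hc, hnl, ?_⟩, ?_⟩
      · rcases hrest with ⟨hin, hnn, hne⟩ | ⟨hin, q, hql, hqn, hne⟩
        · refine Or.inl ⟨?_, ?_⟩
          · intro j
            rw [hnear]
            exact hnn _ (hpt j)
          · intro s' a
            rw [hy0, ← hx s']
            exact hne _ a (hpt s')
        · obtain ⟨j, hqj⟩ := pt_of_ix D U b hc C g hC q hql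
          subst hqj
          refine Or.inr ⟨j, (hnear j).2 hqn, ?_⟩
          intro s' a c
          rw [hy0, ← hx s', ← hx j]
          exact hne _ a c (hpt s')
      · intro A ω
        have hly : lyO D U b (.inr (.inr (g, v, w, y0)) : Sy D) =
            (⟨Sum.inr ⟨(⟨(v, w), hc⟩ : LI D U b), C⟩, y⟩ : Σ l : Ln D U b, LG D U b l) := by
          subst hC
          unfold lyO
          simp only
          rw [dif_pos hc]
          have e0 : eg D (D.β w) (((QuotientGroup.mk (gEl D g) :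
              D.A ⧸ Hw D U b w).out)⁻¹ * gEl D g) = 0 := by
            rw [← hg, inv_mul_cancel, eg_one]
          refine Sigma.ext rfl (heq_of_eq ?_)
          show ev (fun r : ℕ => xx (kk D v w) (((r % kk D v w : ℕ) : ℤ) +
            eg D (D.β w) (((QuotientGroup.mk (gEl D g) :
              D.A ⧸ Hw D U b w).out)⁻¹ * gEl D g))) y0 = y
          rw [e0]
          simp only [add_zero]
          exact hy0
        rw [hly]

end Pool.Agent.H38.BG.SEM2
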